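import Mathlib
import Pool.Agent.Helper999.Sq3.FullOf
import Pool.Agent.Helper16.F5.LemmaP
set_option autoImplicit false
open Polynomial Pointwise

namespace Pool.Agent.Results.MP_9d026e_co.Full

/-- Lemma P (helper16) in the form used by helper329. -/
theorem lemmaP_zmod (p : ℕ) [Fact p.Prime] (hp : 5 ≤ p) :
    Pool.Helper329.SQ.LemmaP (ZMod p) := by
  intro f d e hsq
  have h := Pool.Helper16.F5.lemmaP (Pool.Helper329.SQ.two_ne hp) (Pool.Helper329.SQ.three_ne hp)
    f d e hsq
  simp only [Pool.Helper16.F5.PP] at h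
  simp only [Pool.Helper329.SQ.PP]
  exact h

/-- **Q1 of MP_9d026e_co.** Let `p` be an odd prime.  There is `ε > 0` such that every finite set
`A` of squares of `𝔽_p[x]` (with `|A| ≠ 3` if `p = 3`) satisfies `|A + A| ≥ |A| ^ (1 + ε)`.
For `p = 3` the three element sets have to be excluded: there is a three element set of squares
of `𝔽₃[x]` that is a coset of a subgroup. -/
theorem result (p : ℕ) [Fact p.Prime] (hp : p ≠ 2) :
    (∃ ε : ℝ, 0 < ε ∧ ∀ A : Finset (ZMod p)[X], (∀ f ∈ A, IsSquare f) →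
      (p = 3 → A.card ≠ 3) → (A.card : ℝ) ^ (1 + ε) ≤ ((A + A).card : ℝ)) ∧
    (p = 3 → ∃ A : Finset (ZMod p)[X], (∀ f ∈ A, IsSquare f) ∧ A.card = 3 ∧
      (A + A).card = 3) := by
  refine ⟨Pool.Agent.Helper999.Sq3.full_of (fun p _ h => lemmaP_zmod p h) p hp, ?_⟩
  rintro rfl
  exact Pool.Agent.Helper999.Sq3.coset3

end Pool.Agent.Results.MP_9d026e_co.Full
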